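import Pool.Agent.Lib_helper22.Adam.Cyc
import Pool.Agent.Lib_helper22.Adam.Count50

/-!
# A strict digraph in which the reversal of any arc creates new directed cycles
-/

set_option autoImplicit false

namespace Pool.Agent.Results.MP_934e1a_co.EveryReversalIncreases

open Pool.Agent.Lib_helper22.Adam Pool.Agent.Lib_helper63

/-- the arcs -/
def E : Finset (Fin 25 × Fin 25) := Finset.univ.filter fun a => a.2 ∈ AdamData.nb a.1

theorem mem_E (x y : Fin 25) : (x, y) ∈ E ↔ y ∈ AdamData.nb x := by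
  unfold E
  rw [Finset.mem_filter]
  exact ⟨fun h => h.2, fun h => ⟨Finset.mem_univ _, h⟩⟩

/-- the digraph -/
def D : DGraph (Fin 25) {b // b ∈ E} where
  tail b := b.1.1
  head b := b.1.2

theorem loopless : ∀ x : Fin 25, x ∉ AdamData.nb x := by decide +kernel

theorem nodup : ∀ x : Fin 25, (AdamData.nb x).Nodup := by decide +kernel

theorem oriented : ∀ x y : Fin 25, y ∈ AdamData.nb x → x ∉ AdamData.nb y := by decide +kernel

theorem strict : D.Strict := by
  refine ⟨?_, ?_⟩
  · rintro ⟨⟨x, y⟩, h⟩ (hxy : x = y)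
    rw [mem_E, hxy] at h
    exact loopless y h
  · rintro ⟨⟨x, y⟩, h⟩ ⟨⟨x', y'⟩, h'⟩ (h1 : x = x') (h2 : y = y')
    subst h1 h2
    rfl

theorem noOpposite : D.NoOpposite := by
  rintro ⟨⟨x, y⟩, h⟩ ⟨⟨x', y'⟩, h'⟩ ⟨h1 : x = y', h2 : y = x'⟩
  subst h1 h2
  rw [mem_E] at h h'
  exact oriented x y h h'

theorem reverse_strict {V A : Type} (D : DGraph V A) (h : D.Strict) (h' : D.NoOpposite) (a : A) :
    (D.reverse a).Strict := by
  refine ⟨?_, ?_⟩
  · intro b hb
    simp only [DGraph.reverse] at hb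
    split_ifs at hb
    · exact h.1 a hb.symm
    · exact h.1 b hb
  · intro b c h1 h2
    simp only [DGraph.reverse] at h1 h2
    split_ifs at h1 h2 with h3 h4 h4
    · rw [h3, h4]
    · exact absurd ⟨h2, h1⟩ (h' a c)
    · exact absurd ⟨h1, h2⟩ (h' b a)
    · exact h.2 b c h1 h2

theorem hloop (b : Fin 25 × Fin 25) (hb : b ∈ E) : Prod.fst b ≠ Prod.snd b := by
  obtain ⟨x, y⟩ := b
  intro hxy
  have hxy' : x = y := hxy
  rw [mem_E, hxy'] at hb
  exact loopless y hb

theorem vtx (i : ℕ) : i % 5 < 25 := by omega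

theorem cyc_mem : ∀ j : Fin 5, ((⟨j.val % 5, vtx _⟩ : Fin 25), (⟨(j.val + 1) % 5, vtx _⟩ : Fin 25)) ∈ E := by
  decide +kernel

theorem arc_mem (i : ℕ) :
    ((⟨i % 5, vtx _⟩ : Fin 25), (⟨(i + 1) % 5, vtx _⟩ : Fin 25)) ∈ E := by
  have h := cyc_mem ⟨i % 5, Nat.mod_lt _ (by norm_num)⟩
  have h1 : (i % 5) % 5 = i % 5 := Nat.mod_mod _ _
  have h2 : (i % 5 + 1) % 5 = (i + 1) % 5 := by omega
  simp only [h1, h2] at h
  exact h

theorem one_le : 1 ≤ D.c := by
  rw [DGraph.c, Nat.one_le_iff_ne_zero, ← Nat.pos_iff_ne_zero, Set.ncard_pos (Set.toFinite _)]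
  refine ⟨_, 5, fun i => ⟨i % 5, vtx _⟩, fun i => ⟨_, arc_mem i⟩, by norm_num, ?_, rfl, ?_, rfl⟩
  · intro i j hi hj h
    have h1 : i % 5 = j % 5 := congrArg Fin.val h
    omega
  · intro i _
    exact ⟨rfl, rfl⟩

/-- There is a strict digraph with 25 vertices and 60 arcs, without opposite arcs, which has
directed cycles, and such that the reversal of any arc gives a strict digraph with at least 50 more
directed cycles. -/
theorem result : ∃ (V A : Type) (_ : Fintype V) (_ : Fintype A) (D : DGraph V A),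
    Fintype.card V = 25 ∧ Fintype.card A = 60 ∧ D.Strict ∧ D.NoOpposite ∧ 1 ≤ D.c ∧
      ∀ a : A, (D.reverse a).Strict ∧ D.c + 50 ≤ (D.reverse a).c := by
  refine ⟨Fin 25, {b // b ∈ E}, inferInstance, inferInstance, D, rfl, by decide +kernel, strict,
    noOpposite, one_le, fun a => ⟨reverse_strict D strict noOpposite a, ?_⟩⟩
  obtain ⟨⟨u, v⟩, ha⟩ := a
  have huv : v ∈ AdamData.nb u := (mem_E u v).1 ha
  have hne : u ≠ v := fun h => loopless v (h ▸ huv)
  have h1 : D.c = {S | AdamCount.IsCyc Prod.fst Prod.snd E S}.ncard :=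
    c_eq E D (fun _ => rfl) (fun _ => rfl) hloop
  have h2 : (D.reverse ⟨(u, v), ha⟩).c =
      {S | AdamCount.IsCyc (AdamCount.sE (u, v)) (AdamCount.tE (u, v)) E S}.ncard := by
    refine c_eq E _ ?_ ?_ ?_
    · rintro ⟨b, hb⟩
      by_cases h : b = (u, v)
      · subst h
        rw [AdamCount.sE_self]
        simp [DGraph.reverse, D]
      · rw [AdamCount.sE_of_ne _ _ h]
        simp [DGraph.reverse, D, h]
    · rintro ⟨b, hb⟩
      by_cases h : b = (u, v)
      · subst h
        rw [AdamCount.tE_self]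
        simp [DGraph.reverse, D]
      · rw [AdamCount.tE_of_ne _ _ h]
        simp [DGraph.reverse, D, h]
    · intro b hb
      by_cases h : b = (u, v)
      · subst h
        rw [AdamCount.sE_self, AdamCount.tE_self]
        exact hne.symm
      · rw [AdamCount.sE_of_ne _ _ h, AdamCount.tE_of_ne _ _ h]
        exact hloop b hb
  rw [h1, h2]
  exact ncard_add_le 50 AdamData.nb nodup loopless E mem_E u v huv 25 (by simp)
    (good_all u v huv)

end Pool.Agent.Results.MP_934e1a_co.EveryReversalIncreases
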